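import Pool.Agent.Helper75.KM.StmtsC

/-!
# Module PAT: the bound for the directions of one patch
-/

set_option autoImplicit false

namespace Pool.Agent.Helper75.KM

open Pool.Agent.Helper8.Kak Pool.Agent.Helper89.KakGeo
open MeasureTheory
open scoped ENNReal

/-- translation of the position by a multiple of the cell size -/
theorem pat_ptn_add {m N : ℕ} {L : Type} (x v : L → Fin m → ℝ) (e : Fin m → ℤ) (l : L)
    (t : Fin (2 ^ N)) :
    ptn N (fun l k => x l k + (e k : ℝ) / 2 ^ N) v l t = ptn N x v l t + e := by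
  funext k
  simp only [ptn, cell, pnt, Pi.add_apply]
  rw [show (x l k + (e k : ℝ) / 2 ^ N + ht t * v l k) / (1 / 2 : ℝ) ^ N
      = (x l k + ht t * v l k) / (1 / 2 : ℝ) ^ N + (e k : ℝ) by
    rw [one_div, inv_pow]; field_simp; ring]
  exact Int.floor_add_intCast _ _

theorem pat_ptn_congr {m N : ℕ} {L L' : Type} (x v : L → Fin m → ℝ) (x' v' : L' → Fin m → ℝ)
    (l : L) (l' : L') (hx : x l = x' l') (hv : v l = v' l') (t : Fin (2 ^ N)) :
    ptn N x v l t = ptn N x' v' l' t := by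
  funext k
  simp only [ptn, cell, pnt, hx, hv]

/-- sum of powers is at most the power of the sum -/
theorem pat_sum_rpow {ι : Type} (s : Finset ι) (a : ι → ℝ≥0∞) {α : ℝ} (hα : 1 ≤ α) :
    ∑ i ∈ s, a i ^ α ≤ (∑ i ∈ s, a i) ^ α := by
  classical
  induction s using Finset.induction_on with
  | empty =>
    simp
  | insert i s hi ih =>
    rw [Finset.sum_insert hi, Finset.sum_insert hi]
    exact (add_le_add le_rfl ih).trans (ENNReal.add_rpow_le_rpow_add _ _ hα)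

theorem pat_tsum_rpow {ι : Type} (a : ι → ℝ≥0∞) {α : ℝ} (hα : 1 ≤ α) :
    ∑' i, a i ^ α ≤ (∑' i, a i) ^ α := by
  refine ENNReal.summable.tsum_le_of_sum_le fun s => ?_
  exact (pat_sum_rpow s a hα).trans
    (ENNReal.rpow_le_rpow (ENNReal.sum_le_tsum s) (by linarith))

/-- the slopes are bounded by one -/
theorem pat_slope {m : ℕ} {ω : EE (m + 1)} {i : Fin (m + 1)} (h : ∀ j, |ω j| ≤ |ω i|)
    (k : Fin m) : |slope ω i k| ≤ 1 := by
  unfold slope
  rw [abs_div]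
  exact div_le_one_of_le₀ (h _) (abs_nonneg _)

theorem pat_cell {m N : ℕ} {ω : EE (m + 1)} {i : Fin (m + 1)} {u : Fin m → ℤ}
    (h : ω ∈ patch N i u) : cell ((1 / 2 : ℝ) ^ N) (slope ω i) = u := by
  funext k
  have := h.2.2 k
  rw [← this]
  unfold cell
  congr 1
  rw [one_div, inv_pow]; field_simp

/-- the index map is injective -/
theorem pat_idx_inj {m N : ℕ} (i : Fin (m + 1)) :
    Function.Injective (fun q : ℤ × (Fin m → ℤ) × Fin (2 ^ N) => idx N i q.1 q.2.2 q.2.1) := by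
  rintro ⟨z, c, t⟩ ⟨z', c', t'⟩ h
  simp only [idx] at h
  have h1 : (z * 2 ^ N + ((t : ℕ) : ℤ)) = z' * 2 ^ N + ((t' : ℕ) : ℤ) := by
    have := congrFun h i
    simpa [Fin.insertNth_apply_same] using this
  have h2 : c = c' := by
    funext k
    have := congrFun h (i.succAbove k)
    simpa [Fin.insertNth_apply_succAbove] using this
  have ht : ((t : ℕ) : ℤ) < 2 ^ N := by exact_mod_cast t.2
  have ht' : ((t' : ℕ) : ℤ) < 2 ^ N := by exact_mod_cast t'.2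
  have ht0 : (0 : ℤ) ≤ ((t : ℕ) : ℤ) := Int.natCast_nonneg _
  have ht0' : (0 : ℤ) ≤ ((t' : ℕ) : ℤ) := Int.natCast_nonneg _
  have hz : z = z' := by
    have hp : (0 : ℤ) < 2 ^ N := by positivity
    rcases lt_trichotomy z z' with hlt | heq | hgt
    · exfalso
      have : (z + 1) * 2 ^ N ≤ z' * 2 ^ N := by
        apply mul_le_mul_of_nonneg_right _ hp.le
        omega
      nlinarith
    · exact heq
    · exfalso
      have : (z' + 1) * 2 ^ N ≤ z * 2 ^ N := by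
        apply mul_le_mul_of_nonneg_right _ hp.le
        omega
      nlinarith
  subst hz
  have h3 : ((t : ℕ) : ℤ) = ((t' : ℕ) : ℤ) := by linarith
  have h4 : t = t' := by
    apply Fin.ext
    exact_mod_cast h3
  rw [h2, h4]

/-- Jensen on the slabs -/
theorem pat_jen {m N : ℕ} (hJ : ST_JEN) (f : EE (m + 1) → ℝ≥0∞) (hf : Measurable f)
    (i : Fin (m + 1)) {d : ℝ} (hd : 1 ≤ d) :
    ∑' z : ℤ, (2 ^ N : ℝ≥0∞)⁻¹ * ∑' c : Fin m → ℤ, ∑ t : Fin (2 ^ N), psi N f (idx N i z t c) ^ d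
      ≤ 2 ^ (N * m) * ∫⁻ y, f y ^ d := by
  rw [ENNReal.tsum_mul_left]
  have h1 : ∑' z : ℤ, ∑' c : Fin m → ℤ, ∑ t : Fin (2 ^ N), psi N f (idx N i z t c) ^ d
      = ∑' q : ℤ × (Fin m → ℤ) × Fin (2 ^ N), psi N f (idx N i q.1 q.2.2 q.2.1) ^ d := by
    rw [ENNReal.tsum_prod (f := fun (z : ℤ) (ct : (Fin m → ℤ) × Fin (2 ^ N)) =>
      psi N f (idx N i z ct.2 ct.1) ^ d)]
    refine tsum_congr fun z => ?_
    rw [ENNReal.tsum_prod (f := fun (c : Fin m → ℤ) (t : Fin (2 ^ N)) =>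
      psi N f (idx N i z t c) ^ d)]
    refine tsum_congr fun c => ?_
    rw [tsum_fintype]
  have h2 : ∑' q : ℤ × (Fin m → ℤ) × Fin (2 ^ N), psi N f (idx N i q.1 q.2.2 q.2.1) ^ d
      ≤ ∑' b : Fin (m + 1) → ℤ, psi N f b ^ d :=
    ENNReal.tsum_comp_le_tsum_of_injective (pat_idx_inj (N := N) i) (fun b => psi N f b ^ d)
  have h3 := hJ (m + 1) N f d hf hd
  rw [h1]
  calc (2 ^ N : ℝ≥0∞)⁻¹ * ∑' q : ℤ × (Fin m → ℤ) × Fin (2 ^ N),
        psi N f (idx N i q.1 q.2.2 q.2.1) ^ d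
      ≤ (2 ^ N : ℝ≥0∞)⁻¹ * (2 ^ (N * (m + 1)) * ∫⁻ y, f y ^ d) := by
        gcongr
        exact h2.trans h3
    _ = 2 ^ (N * m) * ∫⁻ y, f y ^ d := by
        rw [← mul_assoc]
        congr 1
        rw [Nat.mul_succ, pow_add, mul_comm (2 ^ (N * m) : ℝ≥0∞), ← mul_assoc,
          ENNReal.inv_mul_cancel (by positivity) (by finiteness), one_mul]

/-- the bound for one selection and one shift -/
theorem pat_shift {m N : ℕ} {α C0 ε d : ℝ} (hJ : ST_JEN) (hα : 1 ≤ α) (hd : 1 ≤ d)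
    {S : Type} [Fintype S] (key : ∀ (x v : S → Fin m → ℝ), Dirs N v →
      ∀ φ : (Fin m → ℤ) → Fin (2 ^ N) → ℝ≥0∞,
      ∑ l, ((2 ^ N)⁻¹ * ∑ t, φ (ptn N x v l t) t) ^ ((m : ℝ) + α) ≤
        ENNReal.ofReal (C0 * Real.exp (ε * N)) *
          ((2 ^ N)⁻¹ * ∑' c : Fin m → ℤ, ∑ t : Fin (2 ^ N), φ c t ^ d) ^ α)
    (f : EE (m + 1) → ℝ≥0∞) (hf : Measurable f) (i : Fin (m + 1))
    (a ω : S → EE (m + 1)) (hω : ∀ u j, |ω u j| ≤ |ω u i|)
    (hinj : Function.Injective fun u => cell ((1 / 2 : ℝ) ^ N) (slope (ω u) i))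
    (e : Fin m → ℤ) :
    ∑' z : ℤ, ∑ u : S, ((2 ^ N)⁻¹ * ∑ t : Fin (2 ^ N), psi N f (idx N i z t
      (ptn N (fun _ : Unit => posn (a u) (ω u) i z) (fun _ : Unit => slope (ω u) i) () t + e)))
        ^ ((m : ℝ) + α)
      ≤ ENNReal.ofReal (C0 * Real.exp (ε * N)) * (2 ^ (N * m) * ∫⁻ y, f y ^ d) ^ α := by
  have h1 : ∀ z : ℤ, ∑ u : S, ((2 ^ N)⁻¹ * ∑ t : Fin (2 ^ N), psi N f (idx N i z t
      (ptn N (fun _ : Unit => posn (a u) (ω u) i z) (fun _ : Unit => slope (ω u) i) () t + e)))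
        ^ ((m : ℝ) + α)
      ≤ ENNReal.ofReal (C0 * Real.exp (ε * N)) *
        ((2 ^ N)⁻¹ * ∑' c : Fin m → ℤ, ∑ t : Fin (2 ^ N), psi N f (idx N i z t c) ^ d) ^ α := by
    intro z
    have := key (fun u k => posn (a u) (ω u) i z k + (e k : ℝ) / 2 ^ N)
      (fun u => slope (ω u) i) ⟨fun u k => pat_slope (hω u) k, hinj⟩
      (fun c t => psi N f (idx N i z t c))
    refine le_trans (le_of_eq ?_) this
    refine Finset.sum_congr rfl fun u _ => ?_
    congr 2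
    refine Finset.sum_congr rfl fun t _ => ?_
    congr 2
    rw [← pat_ptn_add]
    exact pat_ptn_congr _ _ _ _ _ _ rfl rfl t
  calc ∑' z : ℤ, ∑ u : S, ((2 ^ N)⁻¹ * ∑ t : Fin (2 ^ N), psi N f (idx N i z t
      (ptn N (fun _ : Unit => posn (a u) (ω u) i z) (fun _ : Unit => slope (ω u) i) () t + e)))
        ^ ((m : ℝ) + α)
      ≤ ∑' z : ℤ, ENNReal.ofReal (C0 * Real.exp (ε * N)) *
        ((2 ^ N)⁻¹ * ∑' c : Fin m → ℤ, ∑ t : Fin (2 ^ N), psi N f (idx N i z t c) ^ d) ^ α :=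
        ENNReal.tsum_le_tsum h1
    _ = ENNReal.ofReal (C0 * Real.exp (ε * N)) * ∑' z : ℤ,
        ((2 ^ N)⁻¹ * ∑' c : Fin m → ℤ, ∑ t : Fin (2 ^ N), psi N f (idx N i z t c) ^ d) ^ α :=
        ENNReal.tsum_mul_left
    _ ≤ ENNReal.ofReal (C0 * Real.exp (ε * N)) * (∑' z : ℤ,
        ((2 ^ N)⁻¹ * ∑' c : Fin m → ℤ, ∑ t : Fin (2 ^ N), psi N f (idx N i z t c) ^ d)) ^ α := by
        gcongr
        exact pat_tsum_rpow _ hα
    _ ≤ _ := by
        gcongr
        exact pat_jen hJ f hf i hd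

theorem st_PAT (hJ : ST_JEN) (hA : ST_AVG) (hS : ST_SEL) : ST_PAT := by
  intro m α hα hSE ε hε
  obtain ⟨C0, hC0, h0⟩ := hSE ε hε
  obtain ⟨C1, hC1, h1⟩ := hA m
  have hα0 : 0 < α := by linarith
  have hm : (0 : ℝ) ≤ m := Nat.cast_nonneg m
  have hq1 : 1 ≤ (m : ℝ) + α := by linarith
  have hq0 : 0 < (m : ℝ) + α := by linarith
  have hd1 : 1 ≤ 1 + (m : ℝ) / α := by
    have : 0 ≤ (m : ℝ) / α := div_nonneg hm hα0.le
    linarith
  refine ⟨C1 ^ ((m : ℝ) + α) * (5 * 13 ^ m) ^ ((m : ℝ) + α - 1) * 13 ^ m * C0, by positivity, ?_⟩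
  intro N δ hδ hδ1 hNδ hδN f hf i
  classical
  set q : ℝ := (m : ℝ) + α with hq
  set d : ℝ := 1 + (m : ℝ) / α with hd
  set U : Finset (Fin m → ℤ) :=
    Fintype.piFinset (fun _ : Fin m => Finset.Icc (-(2 : ℤ) ^ N) (2 ^ N)) with hU
  have hred : ∑ u ∈ U, (⨆ ω ∈ patch N i u, kak δ f ω) ^ q
      = ∑ u ∈ U with (patch N i u).Nonempty, (⨆ ω ∈ patch N i u, kak δ f ω) ^ q := by
    refine (Finset.sum_filter_of_ne fun u _ hne => ?_).symm
    by_contra hemp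
    rw [Set.not_nonempty_iff_eq_empty] at hemp
    apply hne
    rw [hemp]
    simp [hq0]
  rw [hred]
  set S : Finset (Fin m → ℤ) := U.filter (fun u => (patch N i u).Nonempty) with hSdef
  rw [← Finset.sum_coe_sort S]
  have hne : ∀ u : S, Nonempty (↥(patch N i (u : Fin m → ℤ)) × EE (m + 1)) := by
    intro u
    have := (Finset.mem_filter.mp u.2).2
    obtain ⟨ω, hω⟩ := this
    exact ⟨(⟨ω, hω⟩, 0)⟩
  have hsup : ∀ u : S, (⨆ ω ∈ patch N i (u : Fin m → ℤ), kak δ f ω)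
      = ⨆ x : ↥(patch N i (u : Fin m → ℤ)) × EE (m + 1),
        (volume (tube δ x.2 (x.1 : EE (m + 1))))⁻¹ *
          ∫⁻ y in tube δ x.2 (x.1 : EE (m + 1)), f y := by
    intro u
    rw [iSup_prod, iSup_subtype']
    rfl
  simp_rw [hsup]
  refine hS S (fun u => ↥(patch N i (u : Fin m → ℤ)) × EE (m + 1))
    (fun u x => (volume (tube δ x.2 (x.1 : EE (m + 1))))⁻¹ *
          ∫⁻ y in tube δ x.2 (x.1 : EE (m + 1)), f y) q _ hq0 fun s => ?_
  set ω : S → EE (m + 1) := fun u => ((s u).1 : EE (m + 1)) with hωdef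
  set a : S → EE (m + 1) := fun u => (s u).2 with hadef
  have hω : ∀ u : S, ω u ∈ patch N i (u : Fin m → ℤ) := fun u => (s u).1.2
  set E : Finset (Fin m → ℤ) := Fintype.piFinset (fun _ : Fin m => Finset.Icc (-6 : ℤ) 6) with hE
  have hEcard : (E.card : ℝ≥0∞) = ENNReal.ofReal (13 ^ m) := by
    rw [hE, Fintype.card_piFinset]
    simp only [Int.card_Icc, Finset.prod_const, Finset.card_univ, Fintype.card_fin]
    rw [ENNReal.ofReal_pow (by norm_num)]
    norm_num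
    congr 1
  set A : S → ℤ → (Fin m → ℤ) → ℝ≥0∞ := fun u z e =>
    (2 ^ N)⁻¹ * ∑ t : Fin (2 ^ N), psi N f (idx N i z t
      (ptn N (fun _ : Unit => posn (a u) (ω u) i z) (fun _ : Unit => slope (ω u) i) () t + e))
    with hAdef
  have hF : ∀ u : S, ((volume (tube δ (s u).2 ((s u).1 : EE (m + 1))))⁻¹ *
          ∫⁻ y in tube δ (s u).2 ((s u).1 : EE (m + 1)), f y) ^ q
      ≤ ENNReal.ofReal (C1 ^ q * (5 * 13 ^ m) ^ (q - 1)) * ∑ e ∈ E, ∑' z : ℤ, A u z e ^ q := by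
    intro u
    have h2 := h1 N δ hδ hδ1 hNδ hδN f i (a u) (ω u) (hω u).1 (hω u).2.1
    set Z : Finset ℤ := Finset.Icc (⌊a u i⌋ - 2) (⌊a u i⌋ + 2) with hZ
    have hZcard : Z.card = 5 := by
      rw [hZ, Int.card_Icc]
      omega
    have hcard : ((Z ×ˢ E).card : ℝ≥0∞) = ENNReal.ofReal (5 * 13 ^ m) := by
      rw [Finset.card_product, hZcard, Nat.cast_mul, hEcard,
        ENNReal.ofReal_mul (by norm_num)]
      norm_num
    calc ((volume (tube δ (s u).2 ((s u).1 : EE (m + 1))))⁻¹ *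
          ∫⁻ y in tube δ (s u).2 ((s u).1 : EE (m + 1)), f y) ^ q
        ≤ (ENNReal.ofReal C1 * ∑ z ∈ Z, ∑ e ∈ E, A u z e) ^ q :=
          ENNReal.rpow_le_rpow h2 hq0.le
      _ = ENNReal.ofReal C1 ^ q * (∑ p ∈ Z ×ˢ E, A u p.1 p.2) ^ q := by
          rw [ENNReal.mul_rpow_of_nonneg _ _ hq0.le, Finset.sum_product]
      _ ≤ ENNReal.ofReal C1 ^ q * (((Z ×ˢ E).card : ℝ≥0∞) ^ (q - 1)
            * ∑ p ∈ Z ×ˢ E, A u p.1 p.2 ^ q) := by
          gcongr
          exact ENNReal.rpow_sum_le_const_mul_sum_rpow _ _ hq1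
      _ = ENNReal.ofReal (C1 ^ q * (5 * 13 ^ m) ^ (q - 1)) * ∑ e ∈ E, ∑ z ∈ Z, A u z e ^ q := by
          rw [hcard, ENNReal.ofReal_rpow_of_pos hC1, ENNReal.ofReal_rpow_of_pos (by positivity),
            ENNReal.ofReal_mul (by positivity), mul_assoc, Finset.sum_product_right]
      _ ≤ _ := by
          gcongr
          exact ENNReal.sum_le_tsum _
  have hkey := h0 N S
  have hinj : Function.Injective fun u : S => cell ((1 / 2 : ℝ) ^ N) (slope (ω u) i) := by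
    intro u u' h
    simp only at h
    rw [pat_cell (hω u), pat_cell (hω u')] at h
    exact Subtype.ext h
  have hfin : ∀ e ∈ E, ∑' z : ℤ, ∑ u : S, A u z e ^ q
      ≤ ENNReal.ofReal (C0 * Real.exp (ε * N)) * (2 ^ (N * m) * ∫⁻ y, f y ^ d) ^ α := by
    intro e _
    exact pat_shift hJ hα hd1 hkey f hf i a ω (fun u => (hω u).2.1) hinj e
  calc ∑ u : S, ((volume (tube δ (s u).2 ((s u).1 : EE (m + 1))))⁻¹ *
          ∫⁻ y in tube δ (s u).2 ((s u).1 : EE (m + 1)), f y) ^ q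
      ≤ ∑ u : S, ENNReal.ofReal (C1 ^ q * (5 * 13 ^ m) ^ (q - 1))
          * ∑ e ∈ E, ∑' z : ℤ, A u z e ^ q := Finset.sum_le_sum fun u _ => hF u
    _ = ENNReal.ofReal (C1 ^ q * (5 * 13 ^ m) ^ (q - 1))
          * ∑ e ∈ E, ∑' z : ℤ, ∑ u : S, A u z e ^ q := by
        rw [← Finset.mul_sum, Finset.sum_comm]
        congr 1
        refine Finset.sum_congr rfl fun e _ => ?_
        exact (Summable.tsum_finsetSum fun _ _ => ENNReal.summable).symm
    _ ≤ ENNReal.ofReal (C1 ^ q * (5 * 13 ^ m) ^ (q - 1))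
          * ∑ e ∈ E, ENNReal.ofReal (C0 * Real.exp (ε * N)) *
            (2 ^ (N * m) * ∫⁻ y, f y ^ d) ^ α := by
        gcongr with e he
        exact hfin e he
    _ = ENNReal.ofReal (C1 ^ q * (5 * 13 ^ m) ^ (q - 1) * 13 ^ m * C0 * Real.exp (ε * N) *
          (2 : ℝ) ^ ((N : ℝ) * m * α)) * (∫⁻ y, f y ^ d) ^ α := by
        rw [Finset.sum_const, nsmul_eq_mul, hEcard, ENNReal.mul_rpow_of_nonneg _ _ hα0.le]
        have h2 : ((2 : ℝ≥0∞) ^ (N * m)) ^ α = ENNReal.ofReal ((2 : ℝ) ^ ((N : ℝ) * m * α)) := by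
          rw [show (2 : ℝ≥0∞) = ENNReal.ofReal 2 by norm_num, ← ENNReal.ofReal_pow (by norm_num),
            ENNReal.ofReal_rpow_of_pos (by positivity), ← Real.rpow_natCast, ← Real.rpow_mul
            (by norm_num)]
          push_cast
          rfl
        rw [h2]
        simp only [← mul_assoc]
        rw [← ENNReal.ofReal_mul (by positivity), ← ENNReal.ofReal_mul (by positivity),
          ← ENNReal.ofReal_mul (by positivity)]
        congr 2
        ring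

end Pool.Agent.Helper75.KM
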